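import Pool.Agent.helper88.OF.B0
import Pool.Agent.helper97.OF.MV

/-! # Project OF: F5 (all points of order 105) -/

namespace Pool.Agent.helper88.OF

open Finset Pool.Agent.helper76.LP

open Classical in
/-- averaging over `Gam 105 p` -/
lemma F5_avg (m : ℕ) [NeZero m] (P : ZMod m → ℤ)
    (hodd : ∀ x, P (-x) = - P x) (hT : TateF P) (D e p : ℕ) [NeZero D] [NeZero e] (hD : D ∣ m)
    (he : e * p = D) (hp : p.Prime)
    (hsupp : ∀ x, P x ≠ 0 → addOrderOf x = D) :
    ∃ ν : (ZMod e)ˣ → ℤ, (∀ z : (ZMod D)ˣ,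
        ∑ s : Gam D p, P (emb D m (((s : (ZMod D)ˣ) * z : (ZMod D)ˣ) : ZMod D)) =
          ν (ZMod.unitsMap (Dvd.intro p he) z)) ∧ (∀ y, ν (-y) = - ν y) ∧
      ∀ L : List ℕ, L.toFinset = e.primeFactors → MDv (Gam e) L (Rop p e ν) := by
  have hsurj := ZMod.unitsMap_surjective (m := m) (n := D) hD
  choose lift hlift using hsurj
  set S : ZMod m → ℤ := fun x => ∑ s ∈ (univ : Finset (Gam D p)),
    P (((lift (s : (ZMod D)ˣ) : (ZMod m)ˣ) : ZMod m) * x) with hS
  have hSe : ∀ z : (ZMod D)ˣ, S (emb D m (z : ZMod D)) =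
      ∑ s : Gam D p, P (emb D m (((s : (ZMod D)ˣ) * z : (ZMod D)ˣ) : ZMod D)) := by
    intro z
    simp only [hS]
    apply Finset.sum_congr rfl
    intro s _
    rw [B0_emb hD, hlift]
  have hST : TateF S := B0_sum _ (fun (s : Gam D p) x =>
    P (((lift (s : (ZMod D)ˣ) : (ZMod m)ˣ) : ZMod m) * x)) fun s _ => B0_tr P hT _
  have hSodd : ∀ x, S (-x) = - S x := by
    intro x
    simp only [hS]
    rw [← Finset.sum_neg_distrib]
    apply Finset.sum_congr rfl
    intro s _
    rw [mul_neg, hodd]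
  have hSsupp : ∀ x, S x ≠ 0 → addOrderOf x = D := by
    intro x hx
    simp only [hS] at hx
    obtain ⟨s, -, hs⟩ := Finset.exists_ne_zero_of_sum_ne_zero hx
    have := hsupp _ hs
    rwa [B0_order] at this
  obtain ⟨g, ν, h1, h2, -, h4, h5, -⟩ := move1 m D e p hD he hp
    (fun z => S (emb D m (z : ZMod D))) (by
      intro u hu z
      show S (emb D m ((u * z : (ZMod D)ˣ) : ZMod D)) = S (emb D m (z : ZMod D))
      rw [hSe, hSe]
      rw [← Equiv.sum_comp (Equiv.mulRight (⟨u, hu⟩ : Gam D p))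
        (fun s : Gam D p => P (emb D m (((s : (ZMod D)ˣ) * z : (ZMod D)ˣ) : ZMod D)))]
      apply Finset.sum_congr rfl
      intro s _
      congr 3
      simp only [Equiv.coe_mulRight, Subgroup.coe_mul, mul_assoc]) (by
      intro z
      show S (emb D m ((-z : (ZMod D)ˣ) : ZMod D)) = - S (emb D m (z : ZMod D))
      rw [Units.val_neg, emb_neg hD, hSodd])
  have hem : e ∣ m := (Dvd.intro p he).trans hD
  have hDe : D ≠ e := by
    intro h
    rw [← h] at he
    have hD0 : 0 < D := Nat.pos_of_ne_zero (NeZero.ne D)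
    have := hp.two_le
    nlinarith
  refine ⟨ν, ?_, h2, ?_⟩
  · intro z
    rw [← hSe]
    exact h1 z
  intro L hL
  have hR : ∀ x, S x - anti g x = ext e m (Rop p e ν) x := by
    intro x
    rw [h4]
    by_cases hx : addOrderOf x = D
    · obtain ⟨z, rfl⟩ := exists_emb x hx
      rw [ext_emb hD]; ring
    · have h0 : S x = 0 := by
        by_contra h
        exact hx (hSsupp x h)
      rw [h0, ext_of_order_ne hD _ _ hx]; ring
  have hRT : TateF (ext e m (Rop p e ν)) := by
    have h := B0_sub S _ hST h5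
    have h' : (fun x => S x - anti g x) = ext e m (Rop p e ν) := funext hR
    rwa [h'] at h
  have hRodd : ∀ x, ext e m (Rop p e ν) (-x) = - ext e m (Rop p e ν) x := by
    intro x
    rw [← hR, ← hR, hSodd, anti_odd]; ring
  have h6 := mdiff m (ext e m (Rop p e ν)) hRodd hRT e hem (fun x _ hx =>
    ext_of_order_ne hem _ _ hx) L (by
      intro q hq
      rw [← hL] at hq
      exact List.mem_toFinset.1 hq)
  have h7 : (fun z : (ZMod e)ˣ => ext e m (Rop p e ν) (emb e m (z : ZMod e))) = Rop p e ν := by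
    funext z
    exact ext_emb hem _ z
  rwa [h7] at h6

/-- `unitsMap` of an element of `Gam D q` -/
lemma F5_gam {D e q : ℕ} [NeZero D] (he : e ∣ D) (hq : q ∣ D) (hqe : q ∣ e)
    (h : e / q ∣ D / q) (t : (ZMod D)ˣ) (ht : t ∈ Gam D q) : ZMod.unitsMap he t ∈ Gam e q := by
  unfold Gam
  rw [dif_pos hqe, MonoidHom.mem_ker]
  have h1 : ZMod.unitsMap (Nat.div_dvd_of_dvd hqe) (ZMod.unitsMap he t) =
      ZMod.unitsMap ((Nat.div_dvd_of_dvd hqe).trans he) t := by
    have := ZMod.unitsMap_comp (Nat.div_dvd_of_dvd hqe) he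
    rw [← this]; rfl
  rw [h1]
  have h2 := Gam_le_ker D q (e / q) ((Nat.div_dvd_of_dvd hqe).trans he) hq h ht
  rwa [MonoidHom.mem_ker] at h2


lemma F5_rop (p e : ℕ) (ν : (ZMod e)ˣ → ℤ) (h : p.Coprime e) (y : (ZMod e)ˣ) :
    Rop p e ν y = ν y - ν (ZMod.unitOfCoprime p h * y) := by
  unfold Rop
  rw [dif_pos h]

lemma F5_rop_anti (p e : ℕ) (ν : (ZMod e)ˣ → ℤ) (a : (ZMod e)ˣ) (ha : ∀ y, ν (a * y) = - ν y)
    (y : (ZMod e)ˣ) : Rop p e ν (a * y) = - Rop p e ν y := by
  unfold Rop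
  split_ifs with h
  · rw [ha, mul_left_comm, ha]; ring
  · rw [ha]; ring

lemma F5_um_comp {a b c : ℕ} (h1 : a ∣ b) (h2 : b ∣ c) (z : (ZMod c)ˣ) :
    ZMod.unitsMap h1 (ZMod.unitsMap h2 z) = ZMod.unitsMap (h1.trans h2) z := by
  have := ZMod.unitsMap_comp h1 h2
  rw [← this]; rfl

/-- the function `ν` is anti-invariant -/
lemma F5_nu_anti {D e : ℕ} [NeZero D] (he : e ∣ D) (p : ℕ) (f : (ZMod D)ˣ → ℤ)
    (ν : (ZMod e)ˣ → ℤ) (u : (ZMod D)ˣ) (hu : ∀ z, f (u * z) = - f z) [Fintype (Gam D p)]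
    (h : ∀ z : (ZMod D)ˣ, ∑ s : Gam D p, f ((s : (ZMod D)ˣ) * z) = ν (ZMod.unitsMap he z))
    (y : (ZMod e)ˣ) : ν (ZMod.unitsMap he u * y) = - ν y := by
  obtain ⟨z, rfl⟩ := ZMod.unitsMap_surjective he y
  rw [← map_mul, ← h, ← h, ← Finset.sum_neg_distrib]
  apply Finset.sum_congr rfl
  intro s _
  rw [mul_left_comm, hu]

/-- the case `p = 5`: invariance of `ν` under `Gam 21 7` -/
lemma F5_five (ν : (ZMod 21)ˣ → ℤ) (hν : ∀ y, ν (-y) = - ν y) (t : (ZMod 21)ˣ)
    (h : ∀ y, Rop 5 21 ν (t * y) = Rop 5 21 ν y) (y : (ZMod 21)ˣ) : ν (t * y) = ν y := by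
  have hc : Nat.Coprime 5 21 := by norm_num
  have h1 : ∀ y, ν (t * (ZMod.unitOfCoprime 5 hc * y)) - ν (ZMod.unitOfCoprime 5 hc * y) =
      ν (t * y) - ν y := by
    intro y
    have h2 := h y
    rw [F5_rop 5 21 ν hc, F5_rop 5 21 ν hc, mul_left_comm] at h2
    linarith
  have h3 : ∀ y, ν (t * (-y)) - ν (-y) = ν (t * y) - ν y := by
    intro y
    have h4 := h1 (ZMod.unitOfCoprime 5 hc * (ZMod.unitOfCoprime 5 hc * y))
    have h5 := h1 (ZMod.unitOfCoprime 5 hc * y)
    have h6 := h1 y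
    have h7 : ZMod.unitOfCoprime 5 hc * (ZMod.unitOfCoprime 5 hc *
        (ZMod.unitOfCoprime 5 hc * y)) = -y := by
      rw [← mul_assoc, ← mul_assoc]
      have h8 : ZMod.unitOfCoprime 5 hc * ZMod.unitOfCoprime 5 hc * ZMod.unitOfCoprime 5 hc =
          (-1 : (ZMod 21)ˣ) := by
        apply Units.ext
        simp only [Units.val_mul, ZMod.coe_unitOfCoprime, Units.val_neg, Units.val_one]
        decide
      rw [h8, neg_one_mul]
    rw [h7] at h4
    linarith
  have h9 := h3 y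
  rw [mul_neg, hν, hν] at h9
  linarith

/-- the case `p = 7`: invariance of `ν` under `Gam 15 5` -/
lemma F5_seven (ν : (ZMod 15)ˣ → ℤ) (t : (ZMod 15)ˣ)
    (ht : t ∈ Gam 15 5)
    (h : ∀ y, Rop 7 15 ν (t * y) = Rop 7 15 ν y) (y : (ZMod 15)ˣ) : ν (t * y) = ν y := by
  have hc : Nat.Coprime 7 15 := by norm_num
  set a := ZMod.unitOfCoprime 7 hc with ha
  have h1 : ∀ y, ν (t * (a * y)) - ν (a * y) = ν (t * y) - ν y := by
    intro y
    have h2 := h y
    rw [F5_rop 7 15 ν hc, F5_rop 7 15 ν hc, mul_left_comm] at h2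
    linarith
  have hpow : ∀ (k : ℕ) y, ν (t * (a ^ k * y)) - ν (a ^ k * y) = ν (t * y) - ν y := by
    intro k
    induction k with
    | zero => intro y; simp
    | succ k ih =>
      intro y
      have h2 := ih (a * y)
      rw [h1, ← mul_assoc (a ^ k), ← pow_succ] at h2
      exact h2
  -- `t` is a power of `7`
  have ht7 : ∃ k : ℕ, t = a ^ k := by
    unfold Gam at ht
    rw [dif_pos (by norm_num), MonoidHom.mem_ker] at ht
    have h2 := congrArg Units.val ht
    have h3 : (ZMod.castHom (show (15 / 5 : ℕ) ∣ 15 by norm_num) (ZMod (15 / 5)))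
        (t : ZMod 15) = 1 := by
      simpa [ZMod.unitsMap_def] using h2
    have h4 : ∀ x : ZMod 15, (∃ y : ZMod 15, x * y = 1) →
        (ZMod.castHom (show (15 / 5 : ℕ) ∣ 15 by norm_num) (ZMod (15 / 5))) x = 1 →
        x = 1 ∨ x = 7 ∨ x = 4 ∨ x = 13 := by decide
    rcases h4 (t : ZMod 15) ⟨((t⁻¹ : (ZMod 15)ˣ) : ZMod 15), Units.mul_inv t⟩ h3 with
      h5 | h5 | h5 | h5
    · exact ⟨0, Units.ext (by rw [h5]; simp)⟩
    · exact ⟨1, Units.ext (by rw [h5]; simp [ha])⟩
    · refine ⟨2, Units.ext ?_⟩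
      rw [h5, Units.val_pow_eq_pow_val, ha, ZMod.coe_unitOfCoprime]; decide
    · refine ⟨3, Units.ext ?_⟩
      rw [h5, Units.val_pow_eq_pow_val, ha, ZMod.coe_unitOfCoprime]; decide
  obtain ⟨k, hk⟩ := ht7
  -- the difference `d = ν (t y) - ν y` is the same at `y, t y, t ^ 2 y, t ^ 3 y`
  have h5 : ∀ (j : ℕ), ν (t ^ (j + 1) * y) - ν (t ^ j * y) = ν (t * y) - ν y := by
    intro j
    have h6 := hpow (k * j) y
    rw [pow_mul, ← hk, ← mul_assoc, ← pow_succ'] at h6
    exact h6
  have h6 := h5 0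
  have h7 := h5 1
  have h8 := h5 2
  have h9 := h5 3
  have h10 : t ^ 4 = 1 := by
    rw [hk, ← pow_mul, mul_comm, pow_mul]
    have h11 : a ^ 4 = 1 := by
      apply Units.ext
      rw [Units.val_pow_eq_pow_val, ha, ZMod.coe_unitOfCoprime]; decide
    rw [h11, one_pow]
  norm_num [h10] at h6 h7 h8 h9
  linarith

open Classical in
/-- the values of `f` on a coset of `Gam D q`, given the invariance of the sum over `Gam D p` -/
lemma F5_inv {D p q : ℕ} [NeZero D] (f : (ZMod D)ˣ → ℤ)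
    (hM : MDv (Gam D) [p, q] f) (t : (ZMod D)ˣ) (ht : t ∈ Gam D q)
    (hN : ∀ z, ∑ s : Gam D p, f ((s : (ZMod D)ˣ) * (t * z)) = ∑ s : Gam D p, f ((s : (ZMod D)ˣ) * z))
    (x : (ZMod D)ˣ) : f (t * x) = f x := by
  have h1 : ∀ s : Gam D p, f ((s : (ZMod D)ˣ) * (t * x)) - f (t * x) -
      (f ((s : (ZMod D)ˣ) * x) - f x) = 0 := fun s => hM s s.2 t ht x
  have h2 : ∑ s : Gam D p, (f ((s : (ZMod D)ˣ) * (t * x)) - f (t * x) -
      (f ((s : (ZMod D)ˣ) * x) - f x)) = 0 := Finset.sum_eq_zero fun s _ => h1 s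
  rw [Finset.sum_sub_distrib, Finset.sum_sub_distrib, Finset.sum_sub_distrib, hN,
    Finset.sum_const, Finset.sum_const, nsmul_eq_mul, nsmul_eq_mul] at h2
  have h3 : (0 : ℤ) < ((univ : Finset (Gam D p)).card : ℤ) := by
    have : 0 < (univ : Finset (Gam D p)).card := Finset.card_pos.2 ⟨1, Finset.mem_univ _⟩
    exact_mod_cast this
  have h4 : ((univ : Finset (Gam D p)).card : ℤ) * (f x - f (t * x)) = 0 := by linarith
  rcases mul_eq_zero.1 h4 with h5 | h5
  · omega
  · linarith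

/-- every unit modulo 105 is a product of powers of `22`, `31` and `71` -/
lemma F5_gen (g : (ZMod 105)ˣ → ℤ) (h22 : ∀ a z : (ZMod 105)ˣ, (a : ZMod 105) = 22 → g (a * z) = g z)
    (h31 : ∀ a z : (ZMod 105)ˣ, (a : ZMod 105) = 31 → g (a * z) = g z)
    (h71 : ∀ a z : (ZMod 105)ˣ, (a : ZMod 105) = 71 → g (a * z) = g z) (z : (ZMod 105)ˣ) :
    g z = g 1 := by
  have hc22 : Nat.Coprime 22 105 := by norm_num
  have hc31 : Nat.Coprime 31 105 := by norm_num
  have hc71 : Nat.Coprime 71 105 := by norm_num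
  set a := ZMod.unitOfCoprime 22 hc22 with ha
  set b := ZMod.unitOfCoprime 31 hc31 with hb
  set c := ZMod.unitOfCoprime 71 hc71 with hc
  have ha' : ∀ (k : ℕ) z, g (a ^ k * z) = g z := by
    intro k
    induction k with
    | zero => intro z; simp
    | succ k ih =>
      intro z
      rw [pow_succ, mul_assoc, ih, h22 a z (by rw [ha, ZMod.coe_unitOfCoprime]; rfl)]
  have hb' : ∀ (k : ℕ) z, g (b ^ k * z) = g z := by
    intro k
    induction k with
    | zero => intro z; simp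
    | succ k ih =>
      intro z
      rw [pow_succ, mul_assoc, ih, h31 b z (by rw [hb, ZMod.coe_unitOfCoprime]; rfl)]
  have hc' : ∀ (k : ℕ) z, g (c ^ k * z) = g z := by
    intro k
    induction k with
    | zero => intro z; simp
    | succ k ih =>
      intro z
      rw [pow_succ, mul_assoc, ih, h71 c z (by rw [hc, ZMod.coe_unitOfCoprime]; rfl)]
  have key : ∀ n < 105, Nat.Coprime n 105 →
      ∃ i < 4, ∃ j < 6, ∃ k < 2, 22 ^ i * (31 ^ j * 71 ^ k) % 105 = n := by decide +kernel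
  obtain ⟨i, -, j, -, k, -, hz⟩ := key (z : ZMod 105).val (ZMod.val_lt _)
    (ZMod.val_coe_unit_coprime z)
  have hz' : z = a ^ i * (b ^ j * (c ^ k * 1)) := by
    apply Units.ext
    rw [← ZMod.natCast_zmod_val (z : ZMod 105), ← hz, ZMod.natCast_mod]
    simp only [Units.val_mul, Units.val_pow_eq_pow_val, ha, hb, hc, ZMod.coe_unitOfCoprime,
      mul_one]
    push_cast
    rfl
  rw [hz', ha', hb', hc']

theorem full105 (m : ℕ) [NeZero m] (h2 : Odd m) (u : (ZMod m)ˣ) (hu : IsTw m u)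
    (F : ZMod m → ℤ) (hodd : ∀ x, F (-x) = - F x) (hT : TateF F) (hD : 105 ∣ m)
    (hsupp : ∀ x, F x ≠ 0 → addOrderOf x = 105) (h12 : ∑ x, |F x| ≤ 12) (x : ZMod m) :
    F x - F ((u : ZMod m) * x) = 0 := by
  classical
  obtain ⟨huu, -, hu3⟩ := hu
  obtain ⟨hu105, -⟩ := hu3 105 hD (by norm_num) (by norm_num)
  have hPodd := B0_PF_odd u F hodd
  have hPT := B0_PF_tate u F hT
  have hPsupp : ∀ x, PF u F x ≠ 0 → addOrderOf x = 105 := by
    intro x hx
    by_contra h
    apply hx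
    apply B0_PF_supp
    intro y hy
    by_contra h'
    exact h (hy ▸ hsupp y h')
  have hpanti : ∀ z : (ZMod 105)ˣ, PF u F (emb 105 m ((ZMod.unitsMap hD u * z : (ZMod 105)ˣ) :
      ZMod 105)) = - PF u F (emb 105 m (z : ZMod 105)) := by
    intro z
    rw [← B0_emb hD, B0_PF_anti u huu]
  -- the vanishing differences
  have hmd : ∀ L : List ℕ, L.toFinset = {5, 7} →
      MDv (Gam 105) L (fun z => PF u F (emb 105 m (z : ZMod 105))) := by
    intro L hL
    have h1 := mdiff m (PF u F) hPodd hPT 105 hD (fun x _ hx => by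
      by_contra h
      exact hx (hPsupp x h)) (3 :: L) (by
        intro p hp
        have hpf : Nat.primeFactors 105 = {3, 5, 7} := by
          rw [show (105 : ℕ) = 3 * (5 * 7) by norm_num, Nat.primeFactors_mul (by norm_num)
            (by norm_num), Nat.primeFactors_mul (by norm_num) (by norm_num),
            Nat.Prime.primeFactors (by norm_num), Nat.Prime.primeFactors (by norm_num),
            Nat.Prime.primeFactors (by norm_num)]
          rfl
        rw [hpf, Finset.mem_insert] at hp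
        rcases hp with rfl | hp
        · exact List.mem_cons_self
        · rw [← hL, List.mem_toFinset] at hp
          exact List.mem_cons_of_mem _ hp)
    exact B0_mdv_anti (Gam 105) 3 L _ h1 (ZMod.unitsMap hD u) hu105 hpanti
  -- invariance under `Gam 105 7`
  have hinv7 : ∀ t ∈ Gam 105 7, ∀ z : (ZMod 105)ˣ,
      PF u F (emb 105 m ((t * z : (ZMod 105)ˣ) : ZMod 105)) =
        PF u F (emb 105 m (z : ZMod 105)) := by
    intro t ht z
    obtain ⟨ν, h1, h2', h3⟩ := F5_avg m (PF u F) hPodd hPT 105 21 5 hD (by norm_num)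
      (by norm_num) hPsupp
    have h21 : (21 : ℕ) ∣ 105 := by norm_num
    refine F5_inv (p := 5) (q := 7) (fun z : (ZMod 105)ˣ => PF u F (emb 105 m (z : ZMod 105)))
      (hmd [5, 7] rfl) t ht ?_ z
    intro z
    have h4 := h1 (t * z)
    have h5 := h1 z
    rw [h4, h5, map_mul]
    have hpf : ([3, 7] : List ℕ).toFinset = Nat.primeFactors 21 := by
      rw [show (21 : ℕ) = 3 * 7 by norm_num, Nat.primeFactors_mul (by norm_num)
        (by norm_num), Nat.Prime.primeFactors (by norm_num), Nat.Prime.primeFactors (by norm_num)]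
      rfl
    have h6 := h3 [3, 7] hpf
    have h7 : ZMod.unitsMap h21 (ZMod.unitsMap hD u) ∈ Gam 21 3 := by
      rw [F5_um_comp]
      exact (hu3 21 _ (by norm_num) (by norm_num)).1
    have h8 := B0_mdv_anti (Gam 21) 3 [7] _ h6 _ h7 (F5_rop_anti 5 21 ν _
      (F5_nu_anti h21 5 (fun z : (ZMod 105)ˣ => PF u F (emb 105 m (z : ZMod 105))) ν
        (ZMod.unitsMap hD u) hpanti h1))
    exact F5_five ν h2' _ (fun y => by
      have := h8 _ (F5_gam h21 (by norm_num) (by norm_num) (by norm_num) t ht) y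
      linarith) _
  have hinv5 : ∀ t ∈ Gam 105 5, ∀ z : (ZMod 105)ˣ,
      PF u F (emb 105 m ((t * z : (ZMod 105)ˣ) : ZMod 105)) =
        PF u F (emb 105 m (z : ZMod 105)) := by
    intro t ht z
    obtain ⟨ν, h1, h2', h3⟩ := F5_avg m (PF u F) hPodd hPT 105 15 7 hD (by norm_num)
      (by norm_num) hPsupp
    have h15 : (15 : ℕ) ∣ 105 := by norm_num
    refine F5_inv (p := 7) (q := 5) (fun z : (ZMod 105)ˣ => PF u F (emb 105 m (z : ZMod 105)))
      (hmd [7, 5] (by decide)) t ht ?_ z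
    intro z
    have h4 := h1 (t * z)
    have h5 := h1 z
    rw [h4, h5, map_mul]
    have hpf : ([3, 5] : List ℕ).toFinset = Nat.primeFactors 15 := by
      rw [show (15 : ℕ) = 3 * 5 by norm_num, Nat.primeFactors_mul (by norm_num)
        (by norm_num), Nat.Prime.primeFactors (by norm_num), Nat.Prime.primeFactors (by norm_num)]
      rfl
    have h6 := h3 [3, 5] hpf
    have h7 : ZMod.unitsMap h15 (ZMod.unitsMap hD u) ∈ Gam 15 3 := by
      rw [F5_um_comp]
      exact (hu3 15 _ (by norm_num) (by norm_num)).1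
    have h8 := B0_mdv_anti (Gam 15) 3 [5] _ h6 _ h7 (F5_rop_anti 7 15 ν _
      (F5_nu_anti h15 7 (fun z : (ZMod 105)ˣ => PF u F (emb 105 m (z : ZMod 105))) ν
        (ZMod.unitsMap hD u) hpanti h1))
    exact F5_seven ν _ (F5_gam h15 (by norm_num) (by norm_num) (by norm_num) t ht) (fun y => by
      have := h8 _ (F5_gam h15 (by norm_num) (by norm_num) (by norm_num) t ht) y
      linarith) _
  -- membership in the subgroups
  have hmem : ∀ (p : ℕ) (hp : p ∣ 105) (a : (ZMod 105)ˣ),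
      ZMod.castHom (Nat.div_dvd_of_dvd hp) (ZMod (105 / p)) (a : ZMod 105) = 1 →
      a ∈ Gam 105 p := by
    intro p hp a ha
    unfold Gam
    rw [dif_pos hp, MonoidHom.mem_ker]
    apply Units.ext
    rw [Units.val_one]
    exact ha
  -- the absolute value is constant
  have hc := F5_gen (fun z : (ZMod 105)ˣ => |PF u F (emb 105 m (z : ZMod 105))|)
    (fun a z ha => by
      have := hinv5 a (hmem 5 (by norm_num) a (by rw [ha]; decide)) z
      simp only [this])
    (fun a z ha => by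
      have := hinv7 a (hmem 7 (by norm_num) a (by rw [ha]; decide)) z
      simp only [this])
    (fun a z ha => by
      have h1 : a = ZMod.unitsMap hD u := by
        have h3 := (hu3 105 hD (by norm_num) (by norm_num))
        have h4 : ∀ w : ZMod 105, (∃ y, w * y = 1) → w ≠ 1 →
            ZMod.castHom (Nat.div_dvd_of_dvd (show 3 ∣ 105 by norm_num)) (ZMod (105 / 3)) w = 1 →
            w = 71 := by decide +kernel
        apply Units.ext
        rw [ha]
        symm
        apply h4 _ ⟨_, Units.mul_inv _⟩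
        · intro h5
          exact h3.2 (Units.ext h5)
        · have h6 := h3.1
          unfold Gam at h6
          rw [dif_pos (by norm_num), MonoidHom.mem_ker] at h6
          exact congrArg Units.val h6
      rw [h1]
      simp only [hpanti, abs_neg])
  have hsum : ∑ z : (ZMod 105)ˣ, |PF u F (emb 105 m (z : ZMod 105))| ≤ 24 := by
    have h3 := B0_sum_le hD (PF u F)
    have h4 := B0_PF_norm u F
    linarith
  have hcard : Fintype.card (ZMod 105)ˣ = 48 := by
    rw [ZMod.card_units_eq_totient]; decide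
  have hz0 : ∀ z : (ZMod 105)ˣ, PF u F (emb 105 m (z : ZMod 105)) = 0 := by
    intro z
    have h3 : ∑ z : (ZMod 105)ˣ, |PF u F (emb 105 m (z : ZMod 105))| =
        48 * |PF u F (emb 105 m ((1 : (ZMod 105)ˣ) : ZMod 105))| := by
      rw [Finset.sum_congr rfl fun z _ => hc z, Finset.sum_const, Finset.card_univ, hcard]
      simp
    have h4 := abs_nonneg (PF u F (emb 105 m ((1 : (ZMod 105)ˣ) : ZMod 105)))
    have h5 : |PF u F (emb 105 m ((1 : (ZMod 105)ˣ) : ZMod 105))| = 0 := by omega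
    have h6 := hc z
    rw [h5] at h6
    exact abs_eq_zero.1 h6
  by_cases hx : addOrderOf x = 105
  · obtain ⟨z, rfl⟩ := exists_emb x hx
    exact hz0 z
  · by_contra h
    exact hx (hPsupp x h)

end Pool.Agent.helper88.OF
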