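import Pool.Agent.helper88.OF.Defs

/-! # Project OF: basic lemmas -/

namespace Pool.Agent.helper88.OF

open Finset Pool.Agent.helper76.LP

lemma B0_tr {m : ℕ} [NeZero m] (F : ZMod m → ℤ) (hT : TateF F) (t : (ZMod m)ˣ) :
    TateF (fun x => F ((t : ZMod m) * x)) := by
  intro s
  have h := hT (s * t⁻¹)
  rw [← Equiv.sum_comp (Units.mulLeft t)] at h
  rw [← h]
  apply Finset.sum_congr rfl
  intro x _
  simp only [Units.mulLeft_apply]
  congr 2
  rw [Units.val_mul, mul_assoc, ← mul_assoc _ (t : ZMod m) x, Units.inv_mul, one_mul]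

lemma B0_sub {m : ℕ} [NeZero m] (F G : ZMod m → ℤ) (hF : TateF F) (hG : TateF G) :
    TateF (fun x => F x - G x) := by
  intro t
  simp_rw [sub_mul, Finset.sum_sub_distrib]
  rw [hF t, hG t, sub_zero]

lemma B0_sum {m : ℕ} [NeZero m] {ι : Type*} (s : Finset ι) (F : ι → ZMod m → ℤ)
    (h : ∀ i ∈ s, TateF (F i)) : TateF (fun x => ∑ i ∈ s, F i x) := by
  intro t
  simp_rw [Finset.sum_mul]
  rw [Finset.sum_comm]
  exact Finset.sum_eq_zero fun i hi => h i hi t

lemma B0_order {m : ℕ} [NeZero m] (t : (ZMod m)ˣ) (x : ZMod m) :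
    addOrderOf ((t : ZMod m) * x) = addOrderOf x := by
  apply Nat.dvd_antisymm
  · rw [addOrderOf_dvd_iff_nsmul_eq_zero, nsmul_eq_mul, ← mul_assoc, mul_comm _ (t : ZMod m),
      mul_assoc, ← nsmul_eq_mul, addOrderOf_nsmul_eq_zero, mul_zero]
  · rw [addOrderOf_dvd_iff_nsmul_eq_zero]
    have h := addOrderOf_nsmul_eq_zero ((t : ZMod m) * x)
    rw [nsmul_eq_mul, ← mul_assoc, mul_comm _ (t : ZMod m), mul_assoc, Units.mul_right_eq_zero] at h
    rw [nsmul_eq_mul]; exact h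

lemma B0_emb {m D : ℕ} [NeZero m] [NeZero D] (hD : D ∣ m) (t : (ZMod m)ˣ) (z : (ZMod D)ˣ) :
    (t : ZMod m) * emb D m (z : ZMod D) =
      emb D m ((ZMod.unitsMap hD t * z : (ZMod D)ˣ) : ZMod D) := by
  rw [mul_emb hD]
  rfl

/-- the part of `F` anti-invariant under `u` -/
def PF {m : ℕ} (u : (ZMod m)ˣ) (F : ZMod m → ℤ) (x : ZMod m) : ℤ := F x - F ((u : ZMod m) * x)

lemma B0_PF_tate {m : ℕ} [NeZero m] (u : (ZMod m)ˣ) (F : ZMod m → ℤ) (hT : TateF F) :
    TateF (PF u F) := B0_sub F _ hT (B0_tr F hT u)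

lemma B0_PF_odd {m : ℕ} (u : (ZMod m)ˣ) (F : ZMod m → ℤ) (hodd : ∀ x, F (-x) = - F x)
    (x : ZMod m) : PF u F (-x) = - PF u F x := by
  unfold PF
  rw [mul_neg, hodd, hodd]; ring

lemma B0_PF_anti {m : ℕ} (u : (ZMod m)ˣ) (huu : u * u = 1) (F : ZMod m → ℤ) (x : ZMod m) :
    PF u F ((u : ZMod m) * x) = - PF u F x := by
  unfold PF
  rw [← mul_assoc, ← Units.val_mul, huu, Units.val_one, one_mul]; ring

lemma B0_PF_supp {m : ℕ} [NeZero m] (u : (ZMod m)ˣ) (F : ZMod m → ℤ) (x : ZMod m)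
    (h : ∀ y, addOrderOf y = addOrderOf x → F y = 0) : PF u F x = 0 := by
  unfold PF
  rw [h x rfl, h _ (B0_order u x), sub_zero]

lemma B0_PF_norm {m : ℕ} [NeZero m] (u : (ZMod m)ˣ) (F : ZMod m → ℤ) :
    ∑ x, |PF u F x| ≤ 2 * ∑ x, |F x| := by
  have h1 : ∑ x, |F ((u : ZMod m) * x)| = ∑ x, |F x| :=
    Equiv.sum_comp (Units.mulLeft u) (fun x => |F x|)
  have h2 : ∑ x, |PF u F x| ≤ ∑ x, (|F x| + |F ((u : ZMod m) * x)|) :=
    Finset.sum_le_sum fun x _ => abs_sub _ _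
  rw [Finset.sum_add_distrib, h1] at h2
  linarith

/-- sum over the points of order `D` -/
lemma B0_sum_emb {m D : ℕ} [NeZero m] [NeZero D] (hD : D ∣ m) (F : ZMod m → ℤ) :
    ∑ z : (ZMod D)ˣ, |F (emb D m (z : ZMod D))| =
      ∑ x, (if addOrderOf x = D then |F x| else 0) := by
  classical
  rw [← Finset.sum_filter]
  refine Finset.sum_bij (fun z _ => emb D m (z : ZMod D)) ?_ ?_ ?_ ?_
  · intro z _
    rw [Finset.mem_filter]
    exact ⟨Finset.mem_univ _, addOrderOf_emb hD z⟩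
  · intro z _ w _ h
    exact Units.ext (emb_injective hD h)
  · intro x hx
    rw [Finset.mem_filter] at hx
    obtain ⟨z, hz⟩ := exists_emb x hx.2
    exact ⟨z, Finset.mem_univ _, hz⟩
  · intro z _; rfl

lemma B0_sum_le {m D : ℕ} [NeZero m] [NeZero D] (hD : D ∣ m) (F : ZMod m → ℤ) :
    ∑ z : (ZMod D)ˣ, |F (emb D m (z : ZMod D))| ≤ ∑ x, |F x| := by
  rw [B0_sum_emb hD]
  apply Finset.sum_le_sum
  intro x _
  split_ifs
  · exact le_rfl
  · exact abs_nonneg _

/-- differences -/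
lemma B0_mdv_neg {G ι : Type*} [CommGroup G] (Γ : ι → Subgroup G) : ∀ (L : List ι) (f : G → ℤ)
    (k : ℤ), MDv Γ L f → MDv Γ L (fun x => k * f x)
  | [], f, k, h => fun x => by
      show k * f x = 0
      rw [h x, mul_zero]
  | i :: L, f, k, h => fun u hu => by
      have h1 := B0_mdv_neg Γ L _ k (h u hu)
      have h2 : (fun x => k * (f (u * x) - f x)) = fun x => k * f (u * x) - k * f x := by
        funext x; ring
      rwa [h2] at h1

lemma B0_mdv_div {G ι : Type*} [CommGroup G] (Γ : ι → Subgroup G) : ∀ (L : List ι) (f : G → ℤ)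
    (k : ℤ), k ≠ 0 → MDv Γ L (fun x => k * f x) → MDv Γ L f
  | [], f, k, hk, h => fun x => (mul_eq_zero.1 (h x)).resolve_left hk
  | i :: L, f, k, hk, h => fun u hu => by
      have h1 := h u hu
      have h2 : (fun x => (fun x => k * f x) (u * x) - (fun x => k * f x) x) =
          fun x => k * (f (u * x) - f x) := by
        funext x; ring
      rw [h2] at h1
      exact B0_mdv_div Γ L _ k hk h1

/-- a function anti-invariant under an element of the first subgroup -/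
lemma B0_mdv_anti {G ι : Type*} [CommGroup G] (Γ : ι → Subgroup G) (i : ι) (L : List ι)
    (f : G → ℤ) (h : MDv Γ (i :: L) f) (u : G) (hu : u ∈ Γ i) (ha : ∀ x, f (u * x) = - f x) :
    MDv Γ L f := by
  have h1 := h u hu
  have h2 : (fun x => f (u * x) - f x) = fun x => (-2) * f x := by
    funext x; rw [ha]; ring
  rw [h2] at h1
  exact B0_mdv_div Γ L f (-2) (by norm_num) h1

end Pool.Agent.helper88.OF
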