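import Pool.Agent.helper76.LP.Defs3

/-! # Project OF (odd fourfolds): definitions -/

namespace Pool.Agent.helper88.OF

open Finset Pool.Agent.helper76.LP

/-- `u` is the unit modulo `m` which is `-1` at `3` and `1` away from `3` -/
def IsTw (m : ℕ) (u : (ZMod m)ˣ) : Prop :=
  u * u = 1 ∧ (∀ (D : ℕ) (hD : D ∣ m), ¬ 3 ∣ D → ZMod.unitsMap hD u = 1) ∧
    (∀ (D : ℕ) (hD : D ∣ m), 3 ∣ D → ¬ 9 ∣ D →
      ZMod.unitsMap hD u ∈ Gam D 3 ∧ ZMod.unitsMap hD u ≠ 1)

/-- normalised functions: at the points of order divisible by 3 the values at `x` and `u x` do not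
have the same sign -/
def Nrm {m : ℕ} (u : (ZMod m)ˣ) (F : ZMod m → ℤ) : Prop :=
  ∀ x, 3 ∣ addOrderOf x → F x * F ((u : ZMod m) * x) ≤ 0

/-- no point of order divisible by 9 -/
def No9 {m : ℕ} (F : ZMod m → ℤ) : Prop := ∀ x, 9 ∣ addOrderOf x → F x = 0

open Classical in
/-- indicator function of a subgroup -/
noncomputable def ind {G : Type*} [Group G] (H : Subgroup G) (g : G) : ℤ := if g ∈ H then 1 else 0

/-- the function `1` on `H` and `- u H`, `-1` on `u H` and `- H` (for `u ^ 2 = 1`) -/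
noncomputable def orb {D : ℕ} (H : Subgroup (ZMod D)ˣ) (u g : (ZMod D)ˣ) : ℤ :=
  ind H g - ind H (u * g) - ind H (-g) + ind H (-(u * g))

end Pool.Agent.helper88.OF
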