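import Pool.Agent.helper23.OF.PA
import Pool.Agent.helper23.OF.PB
import Pool.Agent.helper23.OF.PC
import Pool.Agent.helper23.OF.PD
import Pool.Agent.helper6.FQ.CV

/-! # Project OF: the theorem for odd degrees and at most six coordinates -/

namespace Pool.Agent.helper88.OF

open Finset Pool.Agent.helper76.LP Pool.Agent.helper76.FV

open Pool.Agent.helper34.DH in
/-- odd level and norm at most 12: the class is a sum of surface classes -/
theorem cls_odd_twelve (m : ℕ) [NeZero m] (h2 : Odd m) (c : ZMod m → ℤ) (hT : TateF (anti c))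
    (h12 : normw (anti c) ≤ 12) : cls m c ∈ E1 := by
  obtain ⟨c1, hT1, hN1, h121, j1, hj1⟩ := phaseA m h2 c hT h12
  obtain ⟨c2, hT2, hN2, h122, hB2, j2, hj2⟩ := phaseB m h2 c1 hT1 hN1 h121
  obtain ⟨c3, hT3, hN3, h123, hC3, j3, hj3⟩ := phaseC m h2 c2 hT2 hN2 h122 hB2
  have h := phaseD m h2 c3 hT3 h123 hC3
  have hhh : Pool.Agent.helper34.DH.hh ∈ E1 := AddSubgroup.subset_closure (Or.inr rfl)
  have h1 : cls m c = cls m c3 - (j1 + j2 + j3) • hh := by
    rw [hj3, hj2, hj1, add_smul, add_smul]; abel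
  rw [h1]
  exact E1.sub_mem h (E1.zsmul_mem hhh _)

open Pool.Agent.helper34.DH in
/-- the Tate characters of products of Fermat varieties of odd degree with at most six
coordinates -/
theorem tate_odd_fourfold (m : ℕ) (h2 : Odd m) (d : ℕ) (hd : d ≤ 3)
    {s : ℕ} (π : Fin (2 * d) → Fin s) (a : Fin (2 * d) → ZMod m) :
    IsTateChar m π a ↔ (∀ i, a i ≠ 0) ∧ BlockZero π a ∧ SurfEquiv (pts a) 0 := by
  have hm : 0 < m := h2.pos
  have : NeZero m := ⟨hm.ne'⟩
  rw [isTateChar_iff m hm]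
  constructor
  · rintro ⟨hb, hT⟩
    refine ⟨hT.1, hb, surf_of_cls m d a hT.1 ?_⟩
    apply cls_odd_twelve m h2 _ (tateF_anti m a hT)
    refine (normw_anti_le m a).trans ?_
    have h7 : eps m = 1 := by
      unfold eps
      rw [if_neg (Nat.not_even_iff_odd.2 h2)]
    rw [h7]
    push_cast
    have : (d : ℤ) ≤ 3 := by exact_mod_cast hd
    linarith
  · rintro ⟨h0, hb, hs⟩
    exact ⟨hb, tateM_of_surfEquiv m hm _ a h0 hs⟩

end Pool.Agent.helper88.OF

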